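import Pool.Agent.Y825.EV.Density

/-! # The (weak) evasiveness conjecture fails for many numbers of variables

Definitions (`Pool/Agent/Y825/EV/Many.lean` and `Pool/Agent/H128R2/Evas/Final.lean`):
`DT V` are the deterministic decision trees which query variables in `V`, `DT.eval` and `DT.depth`
are the computed function and the maximal number of queries; `Shallow n k` says that some
non-constant monotone transitive Boolean function of `n` variables is computed by a tree of depth
at most `k`, i.e. has `D(f) ≤ k`. -/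

set_option autoImplicit false

namespace Pool.Agent.Results.MP_d4e2f9_lc.ManyDegrees

open Pool.Agent.Y825.EV Filter

/-- There is `m ≥ 2` such that
1. for all `r ≥ 1` and `j` there is a non-constant monotone transitive Boolean function `f` of
   `n = r m ^ j` variables with `D(f) ≤ r (m - 1) ^ j = (1 - 1 / m) ^ j n`;
2. so (`j = 1`) for **every** positive multiple `n` of `m` there is a non-evasive one;
3. for every `δ < 1` there is `ε > 0` such that for all large `x` at least `x ^ δ` of the integers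
   `n ≤ x` have a non-constant monotone transitive `f` of `n` variables with
   `D(f) < n ^ (1 - ε)`. -/
theorem result : ∃ m : ℕ, 2 ≤ m ∧
    (∀ r j : ℕ, 1 ≤ r → Shallow (r * m ^ j) (r * (m - 1) ^ j)) ∧
    (∀ n : ℕ, 1 ≤ n → m ∣ n → Shallow n (n - 1)) ∧
    (∀ δ : ℝ, 0 < δ → δ < 1 → ∃ ε : ℝ, 0 < ε ∧ ∀ᶠ x : ℕ in atTop, (x : ℝ) ^ δ ≤
      ({n : ℕ | n ≤ x ∧ ∃ k : ℕ, Shallow n k ∧ (k : ℝ) < (n : ℝ) ^ (1 - ε)}.ncard : ℝ)) := by
  obtain ⟨m, hm, h⟩ := exists_m
  refine ⟨m, hm, h, ?_, fun δ h0 h1 => density m hm h δ h0 h1⟩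
  rintro n hn ⟨r, rfl⟩
  have hr : 1 ≤ r := by
    rcases Nat.eq_zero_or_pos r with h0 | h0
    · subst h0
      simp at hn
    · exact h0
  have h1 := h r 1 hr
  rw [pow_one, pow_one, mul_comm r m] at h1
  obtain ⟨f, f1, f2, f3, T, T1, T2⟩ := h1
  refine ⟨f, f1, f2, f3, T, T1, T2.trans ?_⟩
  have h2 : r * (m - 1) + r = m * r := by
    obtain ⟨l, rfl⟩ : ∃ l, m = l + 1 := ⟨m - 1, by omega⟩
    rw [Nat.add_sub_cancel]
    ring
  omega

end Pool.Agent.Results.MP_d4e2f9_lc.ManyDegrees
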